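import Mathlib

/-!
# Solutions of linearised congruences (jobs C2a)
-/

namespace Pool.Agent.Y815.C

variable {ι : Type*} [Fintype ι] {s : ℕ}

/-- lattice of solutions of the linearised congruences -/
def lat (M : Fin s → ι → ℤ) (N : ℤ) : AddSubgroup (ι → ℤ) where
  carrier := {z | ∀ j, N ∣ ∑ i, M j i * z i}
  zero_mem' := by intro j; simp
  add_mem' := by
    intro a b ha hb j
    have := dvd_add (ha j) (hb j)
    rw [← Finset.sum_add_distrib] at this
    simpa only [Pi.add_apply, mul_add] using this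
  neg_mem' := by
    intro a ha j
    have := dvd_neg.2 (ha j)
    simpa only [Pi.neg_apply, mul_neg, Finset.sum_neg_distrib] using this

theorem mem_lat {M : Fin s → ι → ℤ} {N : ℤ} {z : ι → ℤ} :
    z ∈ lat M N ↔ ∀ j, N ∣ ∑ i, M j i * z i := Iff.rfl

/-- multiplication by `m` -/
def mulH (ι : Type*) (m : ℤ) : (ι → ℤ) →+ (ι → ℤ) where
  toFun z := fun i => m * z i
  map_zero' := by funext i; simp
  map_add' a b := by funext i; simp [mul_add]

omit [Fintype ι] in
theorem mulH_apply (m : ℤ) (z : ι → ℤ) (i : ι) : mulH ι m z i = m * z i := rfl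

omit [Fintype ι] in
theorem mulH_inj {m : ℤ} (hm : m ≠ 0) : Function.Injective (mulH ι m) := by
  intro a b h
  funext i
  exact mul_left_cancel₀ hm (congrFun h i)

/-- reduction modulo `p` -/
def redH (ι : Type*) (p : ℕ) : (ι → ℤ) →+ (ι → ZMod p) where
  toFun z := fun i => (z i : ZMod p)
  map_zero' := by funext i; simp
  map_add' a b := by funext i; simp

omit [Fintype ι] in
theorem range_mulH (p : ℕ) : (mulH ι (p : ℤ)).range = (redH ι p).ker := by
  ext z
  rw [AddMonoidHom.mem_range, AddMonoidHom.mem_ker]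
  constructor
  · rintro ⟨y, rfl⟩
    funext i
    show (((p : ℤ) * y i : ℤ) : ZMod p) = 0
    simp
  · intro h
    have h1 : ∀ i, (p : ℤ) ∣ z i := by
      intro i
      exact (ZMod.intCast_zmod_eq_zero_iff_dvd _ _).1 (congrFun h i)
    choose y hy using h1
    refine ⟨y, ?_⟩
    funext i
    rw [mulH_apply, hy i]

theorem index_range_mulH (p : ℕ) (hp : 0 < p) :
    (mulH ι (p : ℤ)).range.index = p ^ Fintype.card ι := by
  classical
  have : NeZero p := ⟨hp.ne'⟩
  rw [range_mulH, AddSubgroup.index_ker]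
  have : (redH ι p).range = ⊤ := by
    rw [AddMonoidHom.range_eq_top]
    intro y
    refine ⟨fun i => ((y i).val : ℤ), ?_⟩
    funext i
    show ((((y i).val : ℕ) : ℤ) : ZMod p) = y i
    simp
  rw [this, Nat.card_congr (AddSubgroup.topEquiv).toEquiv, Nat.card_eq_fintype_card,
    Fintype.card_fun, ZMod.card]

theorem lat_index_ne_zero (M : Fin s → ι → ℤ) (J : ℕ) (hJ : 0 < J) :
    (lat M (J : ℤ)).index ≠ 0 := by
  have h1 : (mulH ι (J : ℤ)).range ≤ lat M (J : ℤ) := by
    rintro z ⟨y, rfl⟩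
    intro j
    refine Finset.dvd_sum fun i _ => ?_
    rw [mulH_apply]
    exact Dvd.dvd.mul_left (dvd_mul_right _ _) _
  have h2 := AddSubgroup.index_dvd_of_le h1
  rw [index_range_mulH J hJ] at h2
  intro h3
  rw [h3] at h2
  exact (pow_pos hJ _).ne' (Nat.eq_zero_of_zero_dvd h2)

/-- the quotient map -/
def quoH (M : Fin s → ι → ℤ) (J : ℤ) (p : ℕ) : lat M J →+ (Fin s → ZMod p) where
  toFun z := fun j => (((∑ i, M j i * (z : ι → ℤ) i) / J : ℤ) : ZMod p)
  map_zero' := by funext j; simp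
  map_add' a b := by
    funext j
    have e : ∑ i, M j i * ((a + b : lat M J) : ι → ℤ) i =
        ∑ i, M j i * (a : ι → ℤ) i + ∑ i, M j i * (b : ι → ℤ) i := by
      rw [← Finset.sum_add_distrib]
      refine Finset.sum_congr rfl fun i _ => ?_
      rw [AddSubgroup.coe_add, Pi.add_apply, mul_add]
    rw [e, Int.add_ediv_of_dvd_left (a.2 j)]
    simp

theorem ker_quoH (M : Fin s → ι → ℤ) {J : ℤ} (hJ : J ≠ 0) (p : ℕ) :
    (quoH M J p).ker = (lat M (p * J)).addSubgroupOf (lat M J) := by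
  ext z
  rw [AddMonoidHom.mem_ker, AddSubgroup.mem_addSubgroupOf, mem_lat]
  constructor
  · intro h j
    have h1 : (((∑ i, M j i * (z : ι → ℤ) i) / J : ℤ) : ZMod p) = 0 := congrFun h j
    rw [ZMod.intCast_zmod_eq_zero_iff_dvd] at h1
    have h2 := mul_dvd_mul_left J h1
    rw [Int.mul_ediv_cancel' (z.2 j)] at h2
    rwa [mul_comm (p : ℤ) J]
  · intro h
    funext j
    show (((∑ i, M j i * (z : ι → ℤ) i) / J : ℤ) : ZMod p) = 0
    rw [ZMod.intCast_zmod_eq_zero_iff_dvd]
    have h1 := h j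
    rw [mul_comm (p : ℤ) J] at h1
    have h2 : J * (p : ℤ) ∣ J * ((∑ i, M j i * (z : ι → ℤ) i) / J) := by
      rw [Int.mul_ediv_cancel' (z.2 j)]
      exact h1
    exact (mul_dvd_mul_iff_left hJ).1 h2

theorem quoH_surj (M : Fin s → ι → ℤ) {J : ℤ} (hJ : J ≠ 0) (p : ℕ)
    (h : ∀ b : Fin s → ℤ, ∃ z : ι → ℤ, ∀ j, (p : ℤ) * J ∣ ∑ i, M j i * z i - J * b j) :
    Function.Surjective (quoH M J p) := by
  intro y
  obtain ⟨z, hz⟩ := h (fun j => ((y j).cast : ℤ))
  have hmem : z ∈ lat M J := by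
    intro j
    have h1 := (dvd_mul_left J (p : ℤ)).trans (hz j)
    have h2 := dvd_add h1 (dvd_mul_right J ((y j).cast : ℤ))
    simpa using h2
  refine ⟨⟨z, hmem⟩, ?_⟩
  funext j
  show (((∑ i, M j i * z i) / J : ℤ) : ZMod p) = y j
  obtain ⟨q, hq⟩ := hz j
  have e : ∑ i, M j i * z i = J * ((p : ℤ) * q + ((y j).cast : ℤ)) := by
    linear_combination hq
  rw [e, Int.mul_ediv_cancel_left _ hJ]
  push_cast
  simp

/-- the number of solutions of the linearised congruences modulo `p J`, counted modulo `p`,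
is at most `p ^ (k - s)` -/
theorem lat_card (M : Fin s → ι → ℤ) (hs : s ≤ Fintype.card ι) {J p : ℕ} (hJ : 0 < J) (hp : 0 < p)
    (h : ∀ b : Fin s → ℤ, ∃ z : ι → ℤ, ∀ j, (p : ℤ) * J ∣ ∑ i, M j i * z i - J * b j)
    (T : Finset (ι → ℤ)) (hT : ∀ z ∈ T, ∀ j, (p : ℤ) * J ∣ ∑ i, M j i * z i)
    (hinj : ∀ x ∈ T, ∀ y ∈ T, (∀ i, (p : ℤ) ∣ x i - y i) → x = y) :
    T.card ≤ p ^ (Fintype.card ι - s) := by
  classical
  have : NeZero p := ⟨hp.ne'⟩
  have hJ0 : (J : ℤ) ≠ 0 := by exact_mod_cast hJ.ne'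
  have hp0 : (p : ℤ) ≠ 0 := by exact_mod_cast hp.ne'
  set A := lat M (J : ℤ) with hA
  set B := lat M ((p : ℤ) * J) with hB
  set C := A.map (mulH ι (p : ℤ)) with hC
  have hBA : B ≤ A := by
    intro z hz j
    exact (dvd_mul_left (J : ℤ) (p : ℤ)).trans (hz j)
  have hCB : C ≤ B := by
    rintro z ⟨y, hy, rfl⟩ j
    have h1 := mul_dvd_mul_left (p : ℤ) (hy j)
    rw [Finset.mul_sum] at h1
    refine h1.trans (dvd_of_eq (Finset.sum_congr rfl fun i _ => ?_))
    rw [mulH_apply]
    ring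
  have e1 : B.relIndex A = p ^ s := by
    unfold AddSubgroup.relIndex
    rw [hB, ← ker_quoH M hJ0 p, AddSubgroup.index_ker,
      AddMonoidHom.range_eq_top.2 (quoH_surj M hJ0 p h),
      Nat.card_congr (AddSubgroup.topEquiv).toEquiv, Nat.card_eq_fintype_card,
      Fintype.card_fun, ZMod.card, Fintype.card_fin]
  have e2 : C.index = A.index * p ^ Fintype.card ι := by
    rw [hC, AddSubgroup.index_map_of_injective A (mulH_inj hp0), index_range_mulH p hp]
  have e3 : C.relIndex A * A.index = C.index := AddSubgroup.relIndex_mul_index (hCB.trans hBA)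
  have e4 : C.relIndex B * B.relIndex A = C.relIndex A :=
    AddSubgroup.relIndex_mul_relIndex C B A hCB hBA
  have hA0 : A.index ≠ 0 := lat_index_ne_zero M J hJ
  have e5 : C.relIndex A = p ^ Fintype.card ι := by
    rw [e2, mul_comm] at e3
    exact Nat.eq_of_mul_eq_mul_left (Nat.pos_of_ne_zero hA0) e3
  have e6 : C.relIndex B = p ^ (Fintype.card ι - s) := by
    rw [e5, e1] at e4
    have h2 : p ^ (Fintype.card ι - s) * p ^ s = p ^ Fintype.card ι := by
      rw [← pow_add, Nat.sub_add_cancel hs]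
    rw [← h2] at e4
    exact Nat.eq_of_mul_eq_mul_right (pow_pos hp s) e4
  rw [← e6]
  unfold AddSubgroup.relIndex AddSubgroup.index
  have hfin : Finite (B ⧸ C.addSubgroupOf B) := by
    apply Nat.finite_of_card_ne_zero
    have : Nat.card (B ⧸ C.addSubgroupOf B) = C.relIndex B := rfl
    rw [this, e6]
    exact (pow_pos hp _).ne'
  let f : T → (B ⧸ C.addSubgroupOf B) := fun z => QuotientAddGroup.mk ⟨z.1, hT z.1 z.2⟩
  have hf : Function.Injective f := by
    intro x y hxy
    have h1 := QuotientAddGroup.eq.1 hxy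
    rw [AddSubgroup.mem_addSubgroupOf] at h1
    obtain ⟨u, hu, hu2⟩ := h1
    apply Subtype.ext
    symm
    refine hinj y.1 y.2 x.1 x.2 fun i => ⟨u i, ?_⟩
    have h2 := congrFun hu2 i
    rw [mulH_apply] at h2
    rw [h2]
    simp only [AddSubgroup.coe_add, AddSubgroup.coe_neg, Pi.add_apply, Pi.neg_apply]
    ring
  have := Nat.card_le_card_of_injective f hf
  rwa [Nat.card_eq_fintype_card, Fintype.card_coe] at this

end Pool.Agent.Y815.C
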