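import Pool.Agent.Y67.HP.Residue
import Pool.Agent.Y815.C.Lat

/-!
# Residue classes at which all the forms of a system are divisible by a large modulus (job C2a)
-/

namespace Pool.Agent.Y815.C

open Pool.Agent.Y67.HP

variable {ι : Type*} [Fintype ι] {s : ℕ}

theorem lin_condS (f : MvPolynomial ι ℤ) {S J K P : ℤ} (hS : S ≠ 0) (hK : K ≠ 0)
    (xc m : ι → ℤ) (hm : ∀ i, S ∣ MvPolynomial.eval xc (MvPolynomial.pderiv i f) - m i)
    (hP : P * J ∣ S) {x x0 z : ι → ℤ} (hx0 : ∀ i, S ∣ x0 i - xc i)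
    (hxz : ∀ i, x i - x0 i = S * K * z i)
    (h0 : S * J * (P * K) ∣ MvPolynomial.eval x0 f) (h1 : S * J * (P * K) ∣ MvPolynomial.eval x f) :
    P * J ∣ ∑ i, m i * z i := by
  obtain ⟨h, hh⟩ := taylor' f x0 z (S * K)
  have hx : (fun i => x0 i + S * K * z i) = x := by
    funext i
    have := hxz i
    linarith
  rw [hx] at hh
  have h2 : S * J * (P * K) ∣ (S * K) ^ 2 * h := by
    obtain ⟨q, hq⟩ := hP
    refine Dvd.dvd.mul_right ⟨q * K, ?_⟩ _
    have : (S * K) ^ 2 = S * K * (S * K) := by ring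
    rw [this]
    nth_rewrite 2 [hq]
    ring
  have h3 : S * J * (P * K) ∣ S * K * ∑ i, z i * MvPolynomial.eval x0 (MvPolynomial.pderiv i f) := by
    have : S * K * ∑ i, z i * MvPolynomial.eval x0 (MvPolynomial.pderiv i f) =
        MvPolynomial.eval x f - MvPolynomial.eval x0 f - (S * K) ^ 2 * h := by
      rw [hh]; ring
    rw [this]
    exact dvd_sub (dvd_sub h1 h0) h2
  have h4 : P * J ∣ ∑ i, z i * MvPolynomial.eval x0 (MvPolynomial.pderiv i f) := by
    have h5 : S * K * (P * J) ∣ S * K * ∑ i, z i * MvPolynomial.eval x0 (MvPolynomial.pderiv i f) := by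
      have : S * K * (P * J) = S * J * (P * K) := by ring
      rw [this]; exact h3
    exact (mul_dvd_mul_iff_left (mul_ne_zero hS hK)).1 h5
  have h6 : P * J ∣ ∑ i, z i * MvPolynomial.eval x0 (MvPolynomial.pderiv i f) -
      ∑ i, m i * z i := by
    rw [← Finset.sum_sub_distrib]
    refine Finset.dvd_sum fun i _ => ?_
    have h7 := eval_congr_dvd' (MvPolynomial.pderiv i f) hx0
    have h8 : S ∣ z i * MvPolynomial.eval x0 (MvPolynomial.pderiv i f) - m i * z i := by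
      have e : z i * MvPolynomial.eval x0 (MvPolynomial.pderiv i f) - m i * z i =
        z i * ((MvPolynomial.eval x0 (MvPolynomial.pderiv i f) -
          MvPolynomial.eval xc (MvPolynomial.pderiv i f)) +
          (MvPolynomial.eval xc (MvPolynomial.pderiv i f) - m i)) := by ring
      rw [e]
      exact Dvd.dvd.mul_left (dvd_add h7 (hm i)) _
    exact hP.trans h8
  have h9 := dvd_sub h4 h6
  simpa using h9

/-- Each class has at most `P ^ (k - s)` elements. -/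
theorem class_cardS (f : Fin s → MvPolynomial ι ℤ) (M : Fin s → ι → ℤ)
    (hs : s ≤ Fintype.card ι) {S J K P : ℕ} (hS : 0 < S) (hJ : 0 < J) (hK : 0 < K) (hP0 : 0 < P)
    (xc : ι → ℤ)
    (hM : ∀ j i, (S : ℤ) ∣ MvPolynomial.eval xc (MvPolynomial.pderiv i (f j)) - M j i)
    (hP : (P : ℤ) * J ∣ S)
    (hsurj : ∀ b : Fin s → ℤ, ∃ z : ι → ℤ, ∀ j, (P : ℤ) * J ∣ ∑ i, M j i * z i - J * b j)
    {x0 : ι → ℤ} (hx0 : ∀ i, (S : ℤ) ∣ x0 i - xc i)
    (h0 : ∀ j, (S : ℤ) * J * (P * K) ∣ MvPolynomial.eval x0 (f j))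
    (C : Finset (ι → ℤ))
    (hC : ∀ x ∈ C, (∀ i, (S : ℤ) * K ∣ x i - x0 i) ∧
      ∀ j, (S : ℤ) * J * (P * K) ∣ MvPolynomial.eval x (f j))
    (hinj : ∀ x ∈ C, ∀ y ∈ C, (∀ i, (S : ℤ) * (P * K) ∣ x i - y i) → x = y) :
    C.card ≤ P ^ (Fintype.card ι - s) := by
  classical
  have hS0 : (S : ℤ) ≠ 0 := by exact_mod_cast hS.ne'
  have hK0 : (K : ℤ) ≠ 0 := by exact_mod_cast hK.ne'
  let z : (ι → ℤ) → ι → ℤ := fun x i => (x i - x0 i) / (S * K)
  have hz : ∀ x ∈ C, ∀ i, x i - x0 i = S * K * z x i := by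
    intro x hx i
    exact (Int.mul_ediv_cancel' ((hC x hx).1 i)).symm
  have hpz : ∀ x ∈ C, ∀ y ∈ C, (∀ i, (P : ℤ) ∣ z x i - z y i) → x = y := by
    intro x hx y hy hxy
    refine hinj x hx y hy fun i => ?_
    have e : x i - y i = S * K * (z x i - z y i) := by
      have h1 := hz x hx i
      have h2 := hz y hy i
      linear_combination h1 - h2
    rw [e]
    have e2 : (S : ℤ) * (P * K) = S * K * P := by ring
    rw [e2]
    exact mul_dvd_mul_left _ (hxy i)
  have hzinj : Set.InjOn z C := by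
    intro x hx y hy hxy
    exact hpz x hx y hy (fun i => by rw [hxy]; simp)
  rw [← Finset.card_image_of_injOn hzinj]
  refine lat_card M hs hJ hP0 hsurj _ ?_ ?_
  · intro u hu j
    obtain ⟨x, hx, rfl⟩ := Finset.mem_image.1 hu
    exact lin_condS (f j) hS0 hK0 xc (M j) (hM j) hP hx0 (hz x hx) (h0 j) ((hC x hx).2 j)
  · intro u hu v hv huv
    obtain ⟨x, hx, rfl⟩ := Finset.mem_image.1 hu
    obtain ⟨y, hy, rfl⟩ := Finset.mem_image.1 hv
    rw [hpz x hx y hy huv]

/-- representatives of the classes modulo `m` of the elements of a finite set -/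
theorem exists_rep (T : Finset (ι → ℤ)) (m : ℤ) :
    ∃ rep : (ι → ℤ) → (ι → ℤ), (∀ x ∈ T, rep x ∈ T ∧ ∀ i, m ∣ x i - rep x i) ∧
      ∀ x ∈ T, ∀ y ∈ T, (∀ i, m ∣ x i - y i) → rep x = rep y := by
  classical
  set φ : (ι → ℤ) → (ι → ℤ) := fun x i => x i % m with hφ
  have hφeq : ∀ x y : ι → ℤ, φ x = φ y ↔ ∀ i, m ∣ x i - y i := by
    intro x y
    constructor
    · intro h1 i
      have h2 : x i ≡ y i [ZMOD m] := congrFun h1 i
      exact (Int.ModEq.symm h2).dvd
    · intro h1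
      funext i
      exact (Int.ModEq.symm ((Int.modEq_iff_dvd).mpr (h1 i)))
  have hsec : ∀ c, ∃ x, c ∈ T.image φ → x ∈ T ∧ φ x = c := by
    intro c
    by_cases hc : c ∈ T.image φ
    · obtain ⟨x, hx⟩ := Finset.mem_image.mp hc
      exact ⟨x, fun _ => hx⟩
    · exact ⟨0, fun h => absurd h hc⟩
  choose r hr using hsec
  refine ⟨fun x => r (φ x), ?_, ?_⟩
  · intro x hx
    obtain ⟨h1, h2⟩ := hr (φ x) (Finset.mem_image_of_mem _ hx)
    exact ⟨h1, (hφeq _ _).1 h2.symm⟩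
  · intro x hx y hy hxy
    show r (φ x) = r (φ y)
    rw [(hφeq _ _).2 hxy]

/-- the number of classes modulo `S K` at which the system vanishes modulo `S J K` -/
theorem residue_countS (f : Fin s → MvPolynomial ι ℤ) (M : Fin s → ι → ℤ)
    (hs : s ≤ Fintype.card ι) {S J : ℕ} (hS : 0 < S) (hJ : 0 < J) (xc : ι → ℤ)
    (hM : ∀ j i, (S : ℤ) ∣ MvPolynomial.eval xc (MvPolynomial.pderiv i (f j)) - M j i)
    (L : List ℕ)
    (hL : ∀ P ∈ L, 0 < P ∧ (P : ℤ) * J ∣ S ∧
      ∀ b : Fin s → ℤ, ∃ z : ι → ℤ, ∀ j, (P : ℤ) * J ∣ ∑ i, M j i * z i - J * b j)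
    (T : Finset (ι → ℤ))
    (hT : ∀ x ∈ T, (∀ i, (S : ℤ) ∣ x i - xc i) ∧
      ∀ j, (S : ℤ) * J * (L.prod : ℕ) ∣ MvPolynomial.eval x (f j))
    (hinj : ∀ x ∈ T, ∀ y ∈ T, (∀ i, (S : ℤ) * (L.prod : ℕ) ∣ x i - y i) → x = y) :
    T.card ≤ L.prod ^ (Fintype.card ι - s) := by
  classical
  induction L generalizing T with
  | nil =>
    simp only [List.prod_nil, Nat.cast_one, mul_one, one_pow] at hT hinj ⊢
    refine Finset.card_le_one.2 fun x hx y hy => hinj x hx y hy fun i => ?_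
    have h1 := (hT x hx).1 i
    have h2 := (hT y hy).1 i
    have := dvd_sub h1 h2
    simpa using this
  | cons P L ih =>
    have hLP := hL P (List.mem_cons_self)
    have hL' : ∀ P ∈ L, 0 < P ∧ (P : ℤ) * J ∣ S ∧
      ∀ b : Fin s → ℤ, ∃ z : ι → ℤ, ∀ j, (P : ℤ) * J ∣ ∑ i, M j i * z i - J * b j :=
      fun Q hQ => hL Q (List.mem_cons_of_mem _ hQ)
    set K : ℕ := L.prod with hKdef
    have hKpos : 0 < K := by
      rw [hKdef]
      exact List.prod_pos fun p hp => (hL' p hp).1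
    have hcast : (((P :: L).prod : ℕ) : ℤ) = (P : ℤ) * (K : ℤ) := by
      rw [List.prod_cons, Nat.cast_mul]
    rw [hcast] at hT hinj
    obtain ⟨rep, hrep1, hrep2⟩ := exists_rep T ((S : ℤ) * K)
    have hmain : T.card ≤ (T.image rep).card * P ^ (Fintype.card ι - s) := by
      refine Finset.card_le_mul_card_image (f := rep) T _ ?_ |>.trans (le_of_eq (mul_comm _ _))
      intro x0 hx0
      obtain ⟨w, hw, hw2⟩ := Finset.mem_image.1 hx0
      have hx0T : x0 ∈ T := hw2 ▸ (hrep1 w hw).1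
      refine class_cardS f M hs hS hJ hKpos hLP.1 xc hM hLP.2.1 hLP.2.2 (hT x0 hx0T).1
        (hT x0 hx0T).2 _ ?_ ?_
      · intro x hx
        rw [Finset.mem_filter] at hx
        refine ⟨fun i => ?_, (hT x hx.1).2⟩
        have h3 := (hrep1 x hx.1).2 i
        rwa [hx.2] at h3
      · intro x hx y hy
        rw [Finset.mem_filter] at hx hy
        exact hinj x hx.1 y hy.1
    refine hmain.trans ?_
    rw [List.prod_cons, mul_pow, mul_comm]
    refine Nat.mul_le_mul_left _ ?_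
    refine ih hL' _ ?_ ?_
    · intro x hx
      obtain ⟨w, hw, hw2⟩ := Finset.mem_image.1 hx
      have hxT : x ∈ T := hw2 ▸ (hrep1 w hw).1
      refine ⟨(hT x hxT).1, fun j => dvd_trans ⟨(P : ℤ), ?_⟩ ((hT x hxT).2 j)⟩
      ring
    · intro x hx y hy hxy
      obtain ⟨w, hw, rfl⟩ := Finset.mem_image.1 hx
      obtain ⟨w', hw', rfl⟩ := Finset.mem_image.1 hy
      refine hrep2 w hw w' hw' fun i => ?_
      have h1 := (hrep1 w hw).2 i
      have h2 := (hrep1 w' hw').2 i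
      have h3 := dvd_sub (dvd_add h1 (hxy i)) h2
      have e : w i - rep w i + (rep w i - rep w' i) - (w' i - rep w' i) = w i - w' i := by ring
      rwa [e] at h3

open scoped Classical in
/-- One class modulo `S K` contains at most `ν` classes modulo `S J K` at which the system
vanishes modulo `S J K`. -/
theorem fine_count (f : Fin s → MvPolynomial ι ℤ) (M : Fin s → ι → ℤ) {S J K : ℕ} (hS : 0 < S)
    (hJ : 0 < J) (hK : 0 < K) (hJS : (J : ℤ) ∣ S) (xc : ι → ℤ)
    (hM : ∀ j i, (S : ℤ) ∣ MvPolynomial.eval xc (MvPolynomial.pderiv i (f j)) - M j i)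
    {x0 : ι → ℤ} (hx0 : ∀ i, (S : ℤ) ∣ x0 i - xc i)
    (h0 : ∀ j, (S : ℤ) * J * K ∣ MvPolynomial.eval x0 (f j))
    (C : Finset (ι → ℤ))
    (hC : ∀ x ∈ C, (∀ i, (S : ℤ) * K ∣ x i - x0 i) ∧
      ∀ j, (S : ℤ) * J * K ∣ MvPolynomial.eval x (f j))
    (hinj : ∀ x ∈ C, ∀ y ∈ C, (∀ i, (S : ℤ) * J * K ∣ x i - y i) → x = y) :
    C.card ≤ ((Fintype.piFinset (fun _ : ι => Finset.range J)).filter
      (fun z : ι → ℕ => ∀ j, (J : ℤ) ∣ ∑ i, M j i * (z i : ℤ))).card := by
  have hS0 : (S : ℤ) ≠ 0 := by exact_mod_cast hS.ne'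
  have hK0 : (K : ℤ) ≠ 0 := by exact_mod_cast hK.ne'
  have hJ0 : (J : ℤ) ≠ 0 := by exact_mod_cast hJ.ne'
  let z : (ι → ℤ) → ι → ℤ := fun x i => (x i - x0 i) / (S * K)
  have hz : ∀ x ∈ C, ∀ i, x i - x0 i = S * K * z x i := by
    intro x hx i
    exact (Int.mul_ediv_cancel' ((hC x hx).1 i)).symm
  let n : (ι → ℤ) → ι → ℕ := fun x i => (z x i % (J : ℤ)).toNat
  have hn : ∀ x i, ((n x i : ℕ) : ℤ) = z x i % (J : ℤ) := by
    intro x i
    exact Int.toNat_of_nonneg (Int.emod_nonneg _ hJ0)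
  refine Finset.card_le_card_of_injOn n ?_ ?_
  · intro x hx
    rw [Finset.mem_coe, Finset.mem_filter, Fintype.mem_piFinset]
    refine ⟨fun i => ?_, fun j => ?_⟩
    · rw [Finset.mem_range]
      have h1 : ((n x i : ℕ) : ℤ) < J := by
        rw [hn]
        exact Int.emod_lt_of_pos _ (by exact_mod_cast hJ)
      exact_mod_cast h1
    · have h1 : (1 : ℤ) * J ∣ ∑ i, M j i * z x i := by
        refine lin_condS (f j) hS0 hK0 xc (M j) (hM j) (by rwa [one_mul]) hx0 (hz x hx) ?_ ?_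
        · rw [one_mul]; exact h0 j
        · rw [one_mul]; exact (hC x hx).2 j
      rw [one_mul] at h1
      have h2 : (J : ℤ) ∣ ∑ i, M j i * z x i - ∑ i, M j i * (n x i : ℤ) := by
        rw [← Finset.sum_sub_distrib]
        refine Finset.dvd_sum fun i _ => ?_
        rw [← mul_sub, hn]
        refine Dvd.dvd.mul_left ?_ _
        exact Int.dvd_self_sub_emod
      have h3 := dvd_sub h1 h2
      simpa using h3
  · intro x hx y hy hxy
    refine hinj x hx y hy fun i => ?_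
    have h1 : z x i % (J : ℤ) = z y i % (J : ℤ) := by
      rw [← hn, ← hn, hxy]
    have h2 : (J : ℤ) ∣ z x i - z y i := (Int.ModEq.symm h1 : z y i ≡ z x i [ZMOD (J : ℤ)]).dvd
    have e : x i - y i = S * K * (z x i - z y i) := by
      have h1 := hz x hx i
      have h2 := hz y hy i
      linear_combination h1 - h2
    rw [e]
    have e2 : (S : ℤ) * J * K = S * K * J := by ring
    rw [e2]
    exact mul_dvd_mul_left _ h2

end Pool.Agent.Y815.C
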