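import Pool.Agent.Y716.C.Defs
import Pool.Agent.Y815.C.Res

/-!
# Upper bound for the number of locally small test vectors of a system (job C2a)
-/

namespace Pool.Agent.Y815.C

open Pool.Agent.Y716.Q Pool.Agent.Y716.C

theorem finite_inBoxS {ι : Type*} [Fintype ι] {s : ℕ} (P : ℝ) (ξ : ι → ℝ) (a : Fin s → ι)
    (ρ ρ' : ℝ) : {x : ι → ℤ | InBoxS P ξ a ρ ρ' (fun i => (x i : ℝ))}.Finite := by
  classical
  apply Set.Finite.subset (Finset.finite_toSet (Fintype.piFinset (fun i =>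
    ivl (P * ξ i - P * wdS a ρ ρ' i) (P * ξ i + P * wdS a ρ ρ' i))))
  intro x hx
  rw [Finset.mem_coe, Fintype.mem_piFinset]
  intro i
  have h := abs_le.mp (hx i)
  rw [mem_ivl]
  constructor
  · linarith [h.1]
  · linarith [h.2]

/-- the Jacobian matrix of a member of the class -/
theorem jac_memS {ι : Type*} {s : ℕ} (fc g : Fin s → MvPolynomial ι ℤ) (S J : ℕ) (xc : ι → ℤ)
    (j : Fin s) (i : ι) :
    ((S * J : ℕ) : ℤ) ∣
      MvPolynomial.eval xc (MvPolynomial.pderiv i (memS fc S J g j)) - jac fc xc j i := by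
  unfold memS mem' jac
  rw [map_add, map_add, MvPolynomial.pderiv_C_mul, map_mul, MvPolynomial.eval_C, add_sub_cancel_left]
  exact dvd_mul_right _ _

theorem loc_upper (ι : Type*) [Fintype ι] (s : ℕ) (hs : s ≤ Fintype.card ι) :
    Pool.Agent.Y716.C.LocUpper ι s := by
  classical
  intro w fc g S J xc h V τ M₀ Δ P ξ a ρ ρ' hV hτ hslab N K hK D hD hDw hM₀ ζ
  obtain ⟨L, hL1, hL2⟩ : ∃ L : List ℕ, (∀ p ∈ L, p.Prime ∧ p ≤ w) ∧ L.prod = K := by
    refine ⟨(List.replicate N ((Finset.range (w + 1)).filter Nat.Prime).toList).flatten, ?_, ?_⟩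
    · intro p hp
      rw [List.mem_flatten] at hp
      obtain ⟨l, hl, hpl⟩ := hp
      have := List.eq_of_mem_replicate hl
      subst this
      have h3 := Finset.mem_toList.mp hpl
      rw [Finset.mem_filter, Finset.mem_range] at h3
      exact ⟨h3.2, by omega⟩
    · rw [List.prod_flatten, List.map_replicate, List.prod_replicate, Finset.prod_toList, hK]
  have hK0 : 0 < K := by
    rw [← hL2]
    apply List.prod_pos
    intro p hp
    exact (hL1 p hp).1.pos
  have hcopS : Nat.Coprime S D := by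
    apply Nat.coprime_of_dvd
    intro q hq hqS hqD
    exact hDw q hq (h.hSW q hq hqS) hqD
  have hcopJ : Nat.Coprime J D := Nat.Coprime.coprime_dvd_left h.hJS hcopS
  have hcopK : Nat.Coprime K D := by
    rw [← hL2]
    apply Nat.coprime_list_prod_left_iff.mpr
    intro p hp
    rw [(hL1 p hp).1.coprime_iff_not_dvd]
    exact hDw p (hL1 p hp).1 (hL1 p hp).2
  have hcop : Nat.Coprime (S * J * K) D := Nat.Coprime.mul_left (Nat.Coprime.mul_left hcopS hcopJ) hcopK
  set f := memS fc S J g with hfdef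
  set T := locSetS P ξ a ρ ρ' S J xc fc f K D ζ Δ with hT
  have hTmem : ∀ x ∈ T, InBoxS P ξ a ρ ρ' (fun i => (x i : ℝ)) ∧ (∀ i, (S : ℤ) ∣ x i - xc i) ∧
      (∀ i, (D : ℤ) ∣ x i - ζ i) ∧ ∀ j, (S : ℤ) * J * K ∣ MvPolynomial.eval x (f j) ∧
      |((MvPolynomial.eval x (f j) : ℤ) : ℝ)| ≤ Δ j := by
    intro x hx
    rw [hT] at hx
    unfold locSetS at hx
    rw [Finset.mem_filter, mem_boxS] at hx
    refine ⟨hx.1.1, hx.1.2.1, hx.2.1, fun j => ⟨?_, (hx.2.2 j).2⟩⟩
    have := (hx.2.2 j).1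
    exact_mod_cast this
  have hM : ∀ j i, (S : ℤ) ∣ MvPolynomial.eval xc (MvPolynomial.pderiv i (f j)) - jac fc xc j i := by
    intro j i
    have h1 := jac_memS fc g S J xc j i
    refine dvd_trans ?_ h1
    rw [Nat.cast_mul]
    exact dvd_mul_right _ _
  have hJS : (J : ℤ) ∣ S := by exact_mod_cast h.hJS
  obtain ⟨rep, hr1, hr2⟩ := exists_rep T ((S : ℤ) * J * K)
  set T₁ := T.image rep with hT₁
  have hT₁T : ∀ x ∈ T₁, x ∈ T := by
    intro x hx
    obtain ⟨y, hy, rfl⟩ := Finset.mem_image.1 hx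
    exact (hr1 y hy).1
  have hT₁inj : ∀ x ∈ T₁, ∀ y ∈ T₁, (∀ i, (S : ℤ) * J * K ∣ x i - y i) → x = y := by
    intro x hx y hy hxy
    obtain ⟨u, hu, rfl⟩ := Finset.mem_image.1 hx
    obtain ⟨v, hv, rfl⟩ := Finset.mem_image.1 hy
    refine hr2 u hu v hv fun i => ?_
    have h3 := dvd_sub (dvd_add ((hr1 u hu).2 i) (hxy i)) ((hr1 v hv).2 i)
    have e : u i - rep u i + (rep u i - rep v i) - (v i - rep v i) = u i - v i := by ring
    rwa [e] at h3
  obtain ⟨rep', hr1', hr2'⟩ := exists_rep T₁ ((S : ℤ) * K)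
  set T₂ := T₁.image rep' with hT₂
  have hT₂T₁ : ∀ x ∈ T₂, x ∈ T₁ := by
    intro x hx
    obtain ⟨y, hy, rfl⟩ := Finset.mem_image.1 hx
    exact (hr1' y hy).1
  have c2 : T₂.card ≤ K ^ (Fintype.card ι - s) := by
    have := residue_countS f (jac fc xc) hs h.hS h.hJ xc hM L (fun p hp => by
      obtain ⟨g1, g2⟩ := hL1 p hp
      refine ⟨g1.pos, by exact_mod_cast h.hPJ p g1 g2, fun b => ?_⟩
      obtain ⟨z, hz⟩ := h.hsurj p g1 g2 b
      refine ⟨z, fun j => ?_⟩
      have := hz j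
      exact_mod_cast this) T₂ (fun x hx => by
        obtain ⟨g1, g2, g3, g4⟩ := hTmem x (hT₁T x (hT₂T₁ x hx))
        refine ⟨g2, fun j => ?_⟩
        rw [hL2]
        exact (g4 j).1) (fun x hx y hy hxy => by
        rw [hL2] at hxy
        obtain ⟨u, hu, rfl⟩ := Finset.mem_image.1 hx
        obtain ⟨v, hv, rfl⟩ := Finset.mem_image.1 hy
        refine hr2' u hu v hv fun i => ?_
        have h3 := dvd_sub (dvd_add ((hr1' u hu).2 i) (hxy i)) ((hr1' v hv).2 i)
        have e : u i - rep' u i + (rep' u i - rep' v i) - (v i - rep' v i) = u i - v i := by ring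
        rwa [e] at h3)
    rwa [hL2] at this
  have c1 : T₁.card ≤ nuJ fc J xc * T₂.card := by
    refine Finset.card_le_mul_card_image (f := rep') T₁ _ ?_
    intro x0 hx0
    have hx0T := hTmem x0 (hT₁T x0 (hT₂T₁ x0 hx0))
    have := fine_count f (jac fc xc) h.hS h.hJ hK0 hJS xc hM hx0T.2.1
      (fun j => (hx0T.2.2.2 j).1) (T₁.filter (fun x => rep' x = x0)) (fun x hx => by
        rw [Finset.mem_filter] at hx
        refine ⟨fun i => ?_, fun j => ((hTmem x (hT₁T x hx.1)).2.2.2 j).1⟩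
        have h3 := (hr1' x hx.1).2 i
        rwa [hx.2] at h3) (fun x hx y hy hxy => by
        rw [Finset.mem_filter] at hx hy
        exact hT₁inj x hx.1 y hy.1 hxy)
    unfold nuJ
    exact this
  set B : ℝ := (1 + τ) * (V / ((S * J * K * D : ℕ) : ℝ) ^ Fintype.card ι) with hB
  have hB0 : 0 ≤ B := by
    rw [hB]
    have : (0:ℝ) ≤ ((S * J * K * D : ℕ) : ℝ) := Nat.cast_nonneg _
    positivity
  have c0 : ∀ c ∈ T₁, ((T.filter (fun x => rep x = c)).card : ℝ) ≤ B := by
    intro c hc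
    have hfin : {x : ι → ℤ | (∀ i, ((S * J * K * D : ℕ) : ℤ) ∣ x i - c i) ∧
        InBoxS P ξ a ρ ρ' (fun i => (x i : ℝ)) ∧
        ∀ j, |((MvPolynomial.eval x (f j) : ℤ) : ℝ)| ≤ Δ j}.Finite :=
      (finite_inBoxS P ξ a ρ ρ').subset (fun x hx => hx.2.1)
    have key := hslab (S * J * K * D)
      (Nat.mul_pos (Nat.mul_pos (Nat.mul_pos h.hS h.hJ) hK0) hD) hM₀ c hfin.toFinset
      (fun x => by rw [Set.Finite.mem_toFinset]; rfl)
    refine le_trans ?_ key.2
    have hsub : T.filter (fun x => rep x = c) ⊆ hfin.toFinset := by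
      intro x hx
      rw [Finset.mem_filter] at hx
      rw [Set.Finite.mem_toFinset]
      obtain ⟨g1, g2, g3, g4⟩ := hTmem x hx.1
      obtain ⟨k1, k2, k3, k4⟩ := hTmem c (hT₁T c hc)
      refine ⟨fun i => ?_, g1, fun j => (g4 j).2⟩
      have e1 : ((S * J * K : ℕ) : ℤ) ∣ x i - c i := by
        have := (hr1 x hx.1).2 i
        rw [hx.2] at this
        exact_mod_cast this
      have e2 : (D : ℤ) ∣ x i - c i := by
        have := dvd_sub (g3 i) (k3 i)
        simpa using this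
      have e3 : IsCoprime ((S * J * K : ℕ) : ℤ) (D : ℤ) := Nat.isCoprime_iff_coprime.mpr hcop
      have := e3.mul_dvd e1 e2
      exact_mod_cast this
    exact_mod_cast Finset.card_le_card hsub
  have hsum : (T.card : ℝ) = ∑ c ∈ T₁, ((T.filter (fun x => rep x = c)).card : ℝ) := by
    rw [hT₁, Finset.card_eq_sum_card_image rep T]
    push_cast
    rfl
  rw [hsum]
  refine (Finset.sum_le_sum c0).trans ?_
  rw [Finset.sum_const, nsmul_eq_mul]
  have hcard : (T₁.card : ℝ) ≤ nuJ fc J xc * (K : ℝ) ^ (Fintype.card ι - s) := by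
    have := c1.trans (Nat.mul_le_mul_left _ c2)
    exact_mod_cast this
  refine (mul_le_mul_of_nonneg_right hcard hB0).trans (le_of_eq ?_)
  have hSr : (0:ℝ) < S := by exact_mod_cast h.hS
  have hJr : (0:ℝ) < J := by exact_mod_cast h.hJ
  have hKr : (0:ℝ) < K := by exact_mod_cast hK0
  have hDr : (0:ℝ) < D := by exact_mod_cast hD
  have e0 : (K : ℝ) ^ Fintype.card ι = (K : ℝ) ^ (Fintype.card ι - s) * (K : ℝ) ^ s := by
    rw [← pow_add, Nat.sub_add_cancel hs]
  rw [hB]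
  push_cast
  rw [mul_pow, mul_pow, e0]
  field_simp

end Pool.Agent.Y815.C
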